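import Pool.Agent.PTL.Mas
import Pool.Agent.PTH.Rbp
import Pool.Agent.PSQ.Hit

/-!
# PTL / Fin: weights, counting and the final assembly

As `Pool/Agent/PTH/Wgt.lean`, `Rbp.lean`, `Fin.lean`, with a bounded number of elements of `E` in each dyadic
block: the mass of the available primes is `≥ c` (`mass2`), so a bounded number `C1` of random primes in each
dyadic block misses them with probability `≤ N^(-2)`.
-/

set_option autoImplicit false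

namespace Pool.Agent.PTL

open Finset Filter Pool.Agent.PTH

/-- One dyadic block. -/
private theorem term_ge {C : ℝ} (hC : 0 < C)
    (hcard : ∀ j : ℕ, ((RP j).card : ℝ) ≤ C * 2 ^ j / (j + 1))
    (C1 : ℕ) (AN : Finset ℕ) (j : ℕ) (w : ℝ)
    (hw : ∀ m ∈ AN ∩ RP j, w ≤ (j : ℝ) + 1) :
    C1 * w / C * ∑ m ∈ AN ∩ RP j, 1 / (m : ℝ) ≤
      ((C1 : ℕ) : ℝ) * ((AN ∩ RP j).card : ℝ) / ((RP j).card : ℝ) := by
  have hR0 : (0 : ℝ) < (RP j).card := by exact_mod_cast card_pos.2 (RP_nonempty j)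
  rcases (AN ∩ RP j).eq_empty_or_nonempty with h | ⟨m0, hm0⟩
  · rw [h]
    simp
  have hwj := hw m0 hm0
  have hj1 : (0 : ℝ) < (j : ℝ) + 1 := by positivity
  have h2j : (0 : ℝ) < 2 ^ j := by positivity
  have hsum : ∑ m ∈ AN ∩ RP j, 1 / (m : ℝ) ≤ ((AN ∩ RP j).card : ℝ) / 2 ^ j := by
    rw [div_eq_mul_one_div ((AN ∩ RP j).card : ℝ), ← nsmul_eq_mul]
    refine sum_le_card_nsmul _ _ _ fun m hm => ?_
    have h1 := (mem_inter.1 hm).2
    unfold RP at h1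
    have h2 := (mem_Icc.1 (mem_filter.1 h1).1).1
    refine one_div_le_one_div_of_le h2j ?_
    exact_mod_cast h2
  have hs0 : 0 ≤ ∑ m ∈ AN ∩ RP j, 1 / (m : ℝ) := sum_nonneg fun _ _ => by positivity
  have hn0 : (0 : ℝ) ≤ ((AN ∩ RP j).card : ℝ) := Nat.cast_nonneg _
  have hC1 : (0 : ℝ) ≤ (C1 : ℝ) := Nat.cast_nonneg _
  calc C1 * w / C * ∑ m ∈ AN ∩ RP j, 1 / (m : ℝ)
      ≤ C1 * ((j : ℝ) + 1) / C * (((AN ∩ RP j).card : ℝ) / 2 ^ j) := by
        refine mul_le_mul ?_ hsum hs0 (by positivity)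
        exact div_le_div_of_nonneg_right (mul_le_mul_of_nonneg_left hwj hC1) hC.le
    _ = (C1 : ℝ) * ((AN ∩ RP j).card : ℝ) / (C * 2 ^ j / (j + 1)) := by
        field_simp
    _ ≤ (C1 : ℝ) * ((AN ∩ RP j).card : ℝ) / ((RP j).card : ℝ) := by
        refine div_le_div_of_nonneg_left (by positivity) hR0 (hcard j)

theorem weights_ge2 : ∃ (ε δ : ℝ) (C1 N0 : ℕ), 0 < ε ∧ 0 < δ ∧ δ ≤ 1 / 100000 ∧ δ ≤ ε ∧
    2 ≤ N0 ∧ ∀ N : ℕ, N0 ≤ N → (∀ q ∈ PSK.JH N (hd δ N), ¬ q.Prime) →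
    2 * Real.log N ≤ ∑ j ∈ range (Nat.log 2 (hd ε N) + 1),
      ((C1 : ℕ) : ℝ) * ((AP2 ε δ N ∩ RP j).card : ℝ) / ((RP j).card : ℝ) := by
  obtain ⟨C, hC, hcard⟩ := card_RP_le
  obtain ⟨ε, δ, c, hε, hε1, hδ, hδ1, hδε, hc, hmass⟩ := mass2
  obtain ⟨N1, hN1⟩ := eventually_atTop.1 hmass
  refine ⟨ε, δ, ⌈2 * C / (c * (29 / 400))⌉₊, max 2 N1, hε, hδ, hδ1, hδε,
    le_max_left _ _, fun N hN hno => ?_⟩
  set C1 : ℕ := ⌈2 * C / (c * (29 / 400))⌉₊ with hC1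
  have hC1' : 2 * C / (c * (29 / 400)) ≤ (C1 : ℝ) := Nat.le_ceil _
  have hm2 := hN1 N ((le_max_right _ _).trans hN) hno
  have hN2 : 2 ≤ N := (le_max_left _ _).trans hN
  have hN2' : (2 : ℝ) ≤ N := by exact_mod_cast hN2
  have hlog : 0 < Real.log N := Real.log_pos (by linarith)
  -- membership
  have hmem : ∀ p ∈ AP2 ε δ N, ∃ j ∈ range (Nat.log 2 (hd ε N) + 1), p ∈ RP j := by
    intro p hp
    rw [mem_AP2] at hp
    obtain ⟨h1, h2, -, -⟩ := hp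
    have hp0 : p ≠ 0 := h2.ne_zero
    refine ⟨Nat.log 2 p, mem_range.2 ?_, ?_⟩
    · have := Nat.log_mono_right (b := 2) (show p ≤ hd ε N by omega)
      omega
    · unfold RP
      exact mem_filter.2 ⟨mem_Icc.2 ⟨Nat.pow_log_le_self 2 hp0,
        (Nat.lt_pow_succ_log_self (by norm_num) p).le⟩, h2⟩
  have hsum : ∑ m ∈ AP2 ε δ N, 1 / (m : ℝ) ≤
      ∑ j ∈ range (Nat.log 2 (hd ε N) + 1), ∑ m ∈ AP2 ε δ N ∩ RP j, 1 / (m : ℝ) := by
    have h1 : ∀ j, ∑ m ∈ AP2 ε δ N ∩ RP j, 1 / (m : ℝ)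
        = ∑ m ∈ AP2 ε δ N, if m ∈ RP j then 1 / (m : ℝ) else 0 := by
      intro j
      rw [← sum_filter, filter_mem_eq_inter]
    rw [sum_congr rfl fun j _ => h1 j, sum_comm]
    refine sum_le_sum fun m hm => ?_
    obtain ⟨j, hj, hmj⟩ := hmem m hm
    have h2 : (1 : ℝ) / m = if m ∈ RP j then 1 / (m : ℝ) else 0 := by rw [if_pos hmj]
    refine h2.le.trans ?_
    refine single_le_sum (f := fun j => if m ∈ RP j then 1 / (m : ℝ) else 0)
      (fun i _ => ?_) hj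
    split_ifs
    · positivity
    · exact le_rfl
  have hterm : ∀ j ∈ range (Nat.log 2 (hd ε N) + 1),
      C1 * (29 / 400 * Real.log N) / C * ∑ m ∈ AP2 ε δ N ∩ RP j, 1 / (m : ℝ) ≤
      ((C1 : ℕ) : ℝ) * ((AP2 ε δ N ∩ RP j).card : ℝ) / ((RP j).card : ℝ) := by
    intro j _
    refine term_ge hC hcard C1 _ j _ ?_
    intro m hm
    rw [mem_inter, mem_AP2] at hm
    obtain ⟨⟨h1, h2, h3, -⟩, h4⟩ := hm
    unfold RP at h4
    have h6 := (mem_Icc.1 (mem_filter.1 h4).1).2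
    have h8 : (N : ℝ) ^ (29 / 200 : ℝ) < (m : ℝ) + 1 := by
      have h9 : (N : ℝ) ^ (29 / 200 : ℝ) < (zz N : ℝ) + 1 := by
        unfold zz
        exact Nat.lt_floor_add_one _
      have h10 : (zz N : ℝ) ≤ m := by exact_mod_cast h3
      linarith
    have h9 : (m : ℝ) + 1 ≤ 2 ^ (j + 2) := by
      have h7 : m + 1 ≤ 2 ^ (j + 2) := by
        have : 1 ≤ 2 ^ (j + 1) := Nat.one_le_two_pow
        rw [show j + 2 = (j + 1) + 1 by omega, pow_succ 2 (j + 1)]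
        omega
      exact_mod_cast h7
    have h10 : Real.log ((N : ℝ) ^ (29 / 200 : ℝ)) ≤ Real.log (2 ^ (j + 2)) :=
      Real.log_le_log (by positivity) (by linarith)
    rw [Real.log_rpow (by linarith), Real.log_pow] at h10
    have h11 := Real.log_two_lt_d9
    have h12 : (0 : ℝ) ≤ ((j + 2 : ℕ) : ℝ) := Nat.cast_nonneg _
    have h13 : ((j + 2 : ℕ) : ℝ) * Real.log 2 ≤ ((j + 2 : ℕ) : ℝ) * (7 / 10) :=
      mul_le_mul_of_nonneg_left (by linarith) h12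
    push_cast at *
    have hj0 : (0 : ℝ) ≤ j := Nat.cast_nonneg _
    linarith
  have hw0 : 0 ≤ 29 / 400 * Real.log N := by positivity
  calc 2 * Real.log N = (2 * C / (c * (29 / 400))) * (29 / 400 * Real.log N) / C * c := by
        field_simp
    _ ≤ C1 * (29 / 400 * Real.log N) / C * c := by
        refine mul_le_mul_of_nonneg_right ?_ hc.le
        exact div_le_div_of_nonneg_right (mul_le_mul_of_nonneg_right hC1' hw0) hC.le
    _ ≤ C1 * (29 / 400 * Real.log N) / C *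
          ∑ j ∈ range (Nat.log 2 (hd ε N) + 1), ∑ m ∈ AP2 ε δ N ∩ RP j, 1 / (m : ℝ) :=
        mul_le_mul_of_nonneg_left (hm2.trans hsum) (by positivity)
    _ = ∑ j ∈ range (Nat.log 2 (hd ε N) + 1), C1 * (29 / 400 * Real.log N) / C *
          ∑ m ∈ AP2 ε δ N ∩ RP j, 1 / (m : ℝ) := by rw [mul_sum]
    _ ≤ _ := sum_le_sum hterm

/-- a bounded number of elements in each dyadic interval -/
theorem countE2 (C1 : ℕ) (M : ℕ → Finset ℕ) (hM : ∀ j, M j ⊆ RP j ∧ (M j).card ≤ C1)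
    (y : ℝ) (hy : 1 ≤ y) :
    {p : ℕ | (∃ j, p ∈ M j) ∧ y ≤ p ∧ (p : ℝ) ≤ 2 * y}.ncard ≤ 3 * C1 := by
  classical
  set j : ℕ := Nat.log 2 ⌊y⌋₊ with hj
  have hfl : 1 ≤ ⌊y⌋₊ := Nat.one_le_floor_iff _ |>.2 hy
  have h1 : (2 : ℝ) ^ j ≤ y := by
    have h2 : 2 ^ j ≤ ⌊y⌋₊ := Nat.pow_log_le_self 2 (by omega)
    have h3 : ((2 ^ j : ℕ) : ℝ) ≤ (⌊y⌋₊ : ℝ) := by exact_mod_cast h2
    push_cast at h3
    exact h3.trans (Nat.floor_le (by linarith))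
  have h2 : y < (2 : ℝ) ^ (j + 1) := by
    have h3 : ⌊y⌋₊ < 2 ^ (j + 1) := Nat.lt_pow_succ_log_self (by norm_num) _
    have h4 : ((⌊y⌋₊ + 1 : ℕ) : ℝ) ≤ ((2 ^ (j + 1) : ℕ) : ℝ) := by exact_mod_cast h3
    push_cast at h4
    exact lt_of_lt_of_le (Nat.lt_floor_add_one y) h4
  have hsub : {p : ℕ | (∃ j, p ∈ M j) ∧ y ≤ p ∧ (p : ℝ) ≤ 2 * y} ⊆
      ((Icc (j - 1) (j + 1)).biUnion M : Finset ℕ) := by
    rintro p ⟨⟨i, hi⟩, hyp, hpy⟩
    rw [Finset.mem_coe, mem_biUnion]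
    refine ⟨i, ?_, hi⟩
    have h3 := (hM i).1 hi
    unfold RP at h3
    obtain ⟨h4, h5⟩ := mem_Icc.1 (mem_filter.1 h3).1
    have h6 : (2 : ℝ) ^ i ≤ p := by exact_mod_cast h4
    have h7 : (p : ℝ) ≤ 2 ^ (i + 1) := by exact_mod_cast h5
    have h8 : j ≤ i + 1 := by
      have h9 : (2 : ℝ) ^ j ≤ 2 ^ (i + 1) := by linarith
      exact (pow_le_pow_iff_right₀ (by norm_num)).1 h9
    have h9 : i < j + 2 := by
      have h10 : (2 : ℝ) ^ i < 2 ^ (j + 2) := by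
        have : (2 : ℝ) ^ (j + 2) = 2 * 2 ^ (j + 1) := by ring
        linarith
      exact (pow_lt_pow_iff_right₀ (by norm_num)).1 h10
    rw [mem_Icc]
    omega
  have h3 := Set.ncard_le_ncard hsub (Finset.finite_toSet _)
  rw [Set.ncard_coe_finset] at h3
  refine h3.trans (card_biUnion_le.trans ?_)
  refine (sum_le_card_nsmul _ _ C1 fun j _ => (hM j).2).trans ?_
  rw [Nat.card_Icc, smul_eq_mul]
  exact Nat.mul_le_mul_right _ (by omega)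

private lemma mem_JJ_real {δ : ℝ} (hδ : 0 < δ) (hδ1 : δ ≤ 1 / 100000) {N n : ℕ} {x : ℝ}
    (hx : 1 ≤ x) (hN : N = ⌊x⌋₊) (hn : n ∈ PSK.JH N (hd δ N)) :
    x < n ∧ (n : ℝ) < x + x ^ (1 / 2 - δ) := by
  rw [PSK.mem_JH] at hn
  have h1 : x < N + 1 := by rw [hN]; exact Nat.lt_floor_add_one x
  have h2 : (N : ℝ) ≤ x := by rw [hN]; exact Nat.floor_le (by linarith)
  have h3 : ((N + 1 : ℕ) : ℝ) ≤ n := by exact_mod_cast hn.1
  have h4 : (n : ℝ) < ((N + hd δ N : ℕ) : ℝ) := by exact_mod_cast hn.2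
  push_cast at h3 h4
  have h5 : (hd δ N : ℝ) ≤ x ^ (1 / 2 - δ) := by
    unfold hd
    refine (Nat.floor_le (by positivity)).trans ?_
    exact Real.rpow_le_rpow (Nat.cast_nonneg _) h2 (by linarith)
  constructor <;> linarith

theorem main2 : ∃ (E : Set ℕ) (F : Finset ℕ) (C : ℕ) (δ x0 : ℝ), 0 < δ ∧
    (∀ p ∈ E, p.Prime) ∧
    (∀ y : ℝ, 1 ≤ y → {p : ℕ | p ∈ E ∧ y ≤ p ∧ (p : ℝ) ≤ 2 * y}.ncard ≤ C) ∧
    ∀ x : ℝ, 117 ≤ x → ∃ n m q : ℕ, x < n ∧ (n : ℝ) < x + x ^ (1 / 2 - δ) ∧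
      n = m * q ∧ q.Prime ∧ (m = 1 ∨ m ∈ E ∨ m ∈ F) ∧
      (x0 ≤ x → (m = 1 ∨ m ∈ E) ∧ (m : ℝ) ≤ x ^ (1 / 2 - δ)) := by
  obtain ⟨ε, δ, B1, N0, hε, hδ, hδ1, hδε, hN0, hw⟩ := weights_ge2
  obtain ⟨M, hM, hhit⟩ := PSQ.hitting RP RP_nonempty (fun _ => B1)
    {N : ℕ | N0 ≤ N ∧ ∀ q ∈ PSK.JH N (hd δ N), ¬ q.Prime} (fun N hN => hN0.trans hN.1)
    (AP2 ε δ) (fun N => Nat.log 2 (hd ε N) + 1)
    (fun N hN => hw N hN.1 hN.2)
  refine ⟨{p | ∃ j, p ∈ M j}, range (N0 + 2), 3 * B1, δ, N0 + 1, hδ, ?_, ?_, ?_⟩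
  · rintro p ⟨j, hj⟩
    have := (hM j).1 hj
    rw [RP, mem_filter] at this
    exact this.2
  · intro y hy
    exact countE2 B1 M hM y hy
  · intro x hx
    have hx1 : 1 ≤ x := by linarith
    set N := ⌊x⌋₊ with hN
    have hN117 : 117 ≤ N := Nat.le_floor (by exact_mod_cast hx)
    have hxN : (N : ℝ) ≤ x := by rw [hN]; exact Nat.floor_le (by linarith)
    have hxN' : x < N + 1 := by rw [hN]; exact Nat.lt_floor_add_one x
    rcases lt_or_ge N N0 with hlt | hge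
    · -- small N
      have hn1 : N + 1 ≠ 1 := by omega
      refine ⟨N + 1, (N + 1) / (N + 1).minFac, (N + 1).minFac, ?_, ?_, ?_,
        Nat.minFac_prime hn1, ?_, ?_⟩
      · push_cast
        exact hxN'
      · push_cast
        have hb : (1 : ℝ) < x ^ (1 / 2 - δ) :=
          Real.one_lt_rpow (by linarith) (by linarith)
        linarith
      · exact (Nat.div_mul_cancel (Nat.minFac_dvd _)).symm
      · right; right
        rw [mem_range]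
        exact lt_of_le_of_lt (Nat.div_le_self _ _) (by omega)
      · intro h
        exfalso
        have h2 : ((N + 1 : ℕ) : ℝ) ≤ N0 := by exact_mod_cast hlt
        push_cast at h2
        linarith
    · by_cases hpr : ∃ q ∈ PSK.JH N (hd δ N), q.Prime
      · obtain ⟨q, hq, hqp⟩ := hpr
        obtain ⟨ha, hb⟩ := mem_JJ_real hδ hδ1 hx1 hN hq
        refine ⟨q, 1, q, ha, hb, by rw [one_mul], hqp, Or.inl rfl,
          fun _ => ⟨Or.inl rfl, ?_⟩⟩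
        rw [Nat.cast_one]
        exact Real.one_le_rpow hx1 (by linarith)
      · push Not at hpr
        obtain ⟨j, m, hm⟩ := hhit N ⟨hge, hpr⟩
        rw [Finset.mem_inter] at hm
        obtain ⟨hmA, hmM⟩ := hm
        rw [mem_AP2] at hmA
        obtain ⟨hmt, hmp, hmz, q, hqp, hqm, hqJ⟩ := hmA
        obtain ⟨ha, hb⟩ := mem_JJ_real hδ hδ1 hx1 hN hqJ
        refine ⟨m * q, m, q, ha, hb, rfl, hqp, Or.inr (Or.inl ⟨j, hmM⟩),
          fun _ => ⟨Or.inr ⟨j, hmM⟩, ?_⟩⟩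
        have h2 : (m : ℝ) ≤ (hd ε N : ℝ) := by exact_mod_cast (by omega : m ≤ hd ε N)
        have hN1 : (1 : ℝ) ≤ N := by exact_mod_cast (by omega : 1 ≤ N)
        calc (m : ℝ) ≤ (hd ε N : ℝ) := h2
          _ ≤ (N : ℝ) ^ (1 / 2 - ε) := by
              unfold hd
              exact Nat.floor_le (by positivity)
          _ ≤ (N : ℝ) ^ (1 / 2 - δ) :=
              Real.rpow_le_rpow_of_exponent_le hN1 (by linarith)
          _ ≤ x ^ (1 / 2 - δ) := Real.rpow_le_rpow (Nat.cast_nonneg _) hxN (by linarith)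

end Pool.Agent.PTL
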