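import Pool.Agent.PTH.P2n
import Pool.Agent.PTL.Dia
import Pool.Agent.PSK.Tp

/-!
# PTL / Mas: harmonic mass of the available primes, sharp order of magnitude

`ε ≤ c/(2C)` with `c` from `p2_lower`, `C` from `diag2`, `δ ≤ ε/2`.  If `JH N h` contains no prime, at least
`(c/2) N^(1/2-δ)/log N` of its elements are products `p q`, `zz N ≤ p < q`, `p ≤ hd ε N`; such a `p` is in
`AP2 ε δ N`, and each such `p` occurs at most `h/(p L_R) + 2 R^4 ≤ 33 h/(ε p log N)` times (Selberg's sieve,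
`R = ⌊N^(ε/16)⌋`, `h/p ≥ N^(ε/2)/2`).
-/

set_option autoImplicit false

namespace Pool.Agent.PTL

open Finset Real Filter Pool.Agent.PTH
open Pool.Agent.Helper4.ST

open scoped Classical in
/-- the available primes -/
noncomputable def AP2 (ε δ : ℝ) (N : ℕ) : Finset ℕ :=
  (range (hd ε N + 1)).filter (fun p => p.Prime ∧ zz N ≤ p ∧
    ∃ q : ℕ, q.Prime ∧ p < q ∧ p * q ∈ PSK.JH N (hd δ N))

theorem mem_AP2 {ε δ : ℝ} {N p : ℕ} : p ∈ AP2 ε δ N ↔ p < hd ε N + 1 ∧ p.Prime ∧ zz N ≤ p ∧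
    ∃ q : ℕ, q.Prime ∧ p < q ∧ p * q ∈ PSK.JH N (hd δ N) := by
  simp [AP2]

open scoped Classical in
/-- number of products `p q` in `JH N h` for fixed `p` -/
private lemma card_pq (N h R p : ℕ) (hR : 1 ≤ R) (hp : p.Prime) (hRp : R < p) :
    (((PSK.JH N h).filter (fun n => ∃ q : ℕ, q.Prime ∧ p < q ∧ n = p * q)).card : ℝ) ≤
      (h : ℝ) / (p * Selberg.L R) + 2 * (R : ℝ) ^ 4 := by
  refine le_trans ?_ (PSK.TT_large N h R p hR hp hRp)
  unfold PSK.TT
  rw [Finset.card_eq_sum_ones]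
  push_cast
  calc ∑ n ∈ (PSK.JH N h).filter (fun n => ∃ q : ℕ, q.Prime ∧ p < q ∧ n = p * q), (1 : ℝ)
      = ∑ n ∈ (PSK.JH N h).filter (fun n => ∃ q : ℕ, q.Prime ∧ p < q ∧ n = p * q),
        Selberg.wt R n := by
        refine Finset.sum_congr rfl fun n hn => ?_
        rw [Finset.mem_filter] at hn
        obtain ⟨-, q, hq, hpq, rfl⟩ := hn
        exact (wt_pq hR hp hq hRp (by omega)).symm
    _ ≤ ∑ n ∈ (PSK.JH N h).filter (fun n => p ∣ n), Selberg.wt R n := by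
        refine Finset.sum_le_sum_of_subset_of_nonneg ?_ fun n _ _ => Selberg.wt_nonneg _ _
        intro n hn
        rw [Finset.mem_filter] at hn ⊢
        obtain ⟨h1, q, hq, hpq, rfl⟩ := hn
        exact ⟨h1, dvd_mul_right _ _⟩

/-- the numerical facts for large `N` -/
private lemma ev_facts2 (ε δ : ℝ) (hε : 0 < ε) (hε2 : ε ≤ 1 / 1000) (hδ : 0 < δ)
    (hδε : δ ≤ ε / 2) : ∀ᶠ x : ℝ in atTop,
    3 ≤ x ∧ 1 ≤ x ^ (ε / 16) ∧ x ^ (ε / 16) + 1 < x ^ (29 / 200 : ℝ) ∧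
      2 ≤ x ^ (1 / 2 - δ) ∧ 4 * log x ≤ x ^ (ε / 4) := by
  have e1 := (tendsto_rpow_atTop (show (0 : ℝ) < 1 / 2 - δ by linarith)).eventually_ge_atTop
    (2 : ℝ)
  have e2 := (tendsto_rpow_atTop (show (0 : ℝ) < 1 / 10 by norm_num)).eventually_ge_atTop
    (3 : ℝ)
  have e3 := (isLittleO_log_rpow_atTop (show (0 : ℝ) < ε / 4 by positivity)).bound
    (show (0 : ℝ) < 1 / 4 by norm_num)
  filter_upwards [e1, e2, e3, eventually_ge_atTop (3 : ℝ)] with x h1 h2 h3 hx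
  have hx0 : 0 < x := by linarith
  have hx1 : 1 ≤ x := by linarith
  have hlog : 0 < log x := log_pos (by linarith)
  refine ⟨hx, one_le_rpow hx1 (by positivity), ?_, h1, ?_⟩
  · have h4 : x ^ (ε / 16) ≤ x ^ (4 / 100 : ℝ) :=
      rpow_le_rpow_of_exponent_le hx1 (by linarith)
    have h5 : x ^ (4 / 100 : ℝ) * x ^ (1 / 10 : ℝ) ≤ x ^ (29 / 200 : ℝ) := by
      rw [← rpow_add hx0]
      exact rpow_le_rpow_of_exponent_le hx1 (by norm_num)
    have h6 : 1 ≤ x ^ (4 / 100 : ℝ) := one_le_rpow hx1 (by norm_num)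
    nlinarith
  · rw [norm_eq_abs, norm_eq_abs, abs_of_pos hlog, abs_of_pos (rpow_pos_of_pos hx0 _)] at h3
    linarith

open scoped Classical in
theorem mass2 : ∃ ε δ c : ℝ, 0 < ε ∧ ε ≤ 1 / 1000 ∧ 0 < δ ∧ δ ≤ 1 / 100000 ∧ δ ≤ ε ∧ 0 < c ∧
    ∀ᶠ N : ℕ in atTop, (∀ q ∈ PSK.JH N (hd δ N), ¬ q.Prime) →
      c ≤ ∑ p ∈ AP2 ε δ N, 1 / (p : ℝ) := by
  obtain ⟨c, hc, H1⟩ := p2_lower
  obtain ⟨C, hC, H2⟩ := diag2
  obtain ⟨ε, hε, hε1, hε2⟩ : ∃ ε : ℝ, 0 < ε ∧ ε ≤ 1 / 1000 ∧ C * ε ≤ c / 2 := by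
    refine ⟨min (1 / 1000) (c / (2 * C)), ?_, min_le_left _ _, ?_⟩
    · exact lt_min (by norm_num) (by positivity)
    · calc C * min (1 / 1000) (c / (2 * C)) ≤ C * (c / (2 * C)) :=
          mul_le_mul_of_nonneg_left (min_le_right _ _) hC.le
        _ = c / 2 := by field_simp
  obtain ⟨δ, hδ, hδ1, hδ2⟩ : ∃ δ : ℝ, 0 < δ ∧ δ ≤ 1 / 100000 ∧ δ ≤ ε / 2 :=
    ⟨min (1 / 100000) (ε / 2), lt_min (by norm_num) (by positivity), min_le_left _ _,
      min_le_right _ _⟩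
  refine ⟨ε, δ, c * ε / 66, hε, hε1, hδ, hδ1, by linarith, by positivity, ?_⟩
  filter_upwards [H1 δ hδ hδ1, H2 ε δ hε hε1 hδ (by linarith),
    tendsto_natCast_atTop_atTop.eventually (ev_facts2 ε δ hε hε1 hδ hδ2)] with N h1 h2 hN hpr
  obtain ⟨f1, f2, f3, f4, f5⟩ := hN
  have hN0 : (0 : ℝ) < N := by linarith
  have hN1 : (1 : ℝ) ≤ N := by linarith
  have hlog : 0 < log N := log_pos (by linarith)
  set h : ℕ := hd δ N with hh
  set X : ℝ := (N : ℝ) ^ (1 / 2 - δ) with hX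
  set R : ℕ := ⌊(N : ℝ) ^ (ε / 16)⌋₊ with hR
  have hX0 : 0 < X := rpow_pos_of_pos hN0 _
  have hhle : (h : ℝ) ≤ X := by
    rw [hh]; unfold hd
    exact Nat.floor_le hX0.le
  have hhge : X / 2 ≤ (h : ℝ) := by
    have : X - 1 ≤ (h : ℝ) := by
      rw [hh]; unfold hd
      exact (Nat.sub_one_lt_floor _).le
    linarith
  have hR1 : 1 ≤ R := Nat.one_le_floor_iff _ |>.2 f2
  have hRle : (R : ℝ) ≤ (N : ℝ) ^ (ε / 16) := Nat.floor_le (rpow_nonneg hN0.le _)
  have hRz : R < zz N := by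
    have h3 : (N : ℝ) ^ (29 / 200 : ℝ) - 1 < (zz N : ℝ) := Nat.sub_one_lt_floor _
    have h4 : (R : ℝ) < zz N := by linarith
    exact_mod_cast h4
  have hL : ε * log N / 32 ≤ Selberg.L R := by
    have h9 := Selberg.L_ge R
    have h10 : log ((N : ℝ) ^ (ε / 16)) ≤ log (R + 1) :=
      log_le_log (rpow_pos_of_pos hN0 _) (Nat.lt_floor_add_one _).le
    rw [log_rpow hN0] at h10
    linarith
  have hL0 : 0 < ε * log N / 32 := by positivity
  -- the decomposition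
  have h3 : (PSK.JH N h).filter (fun n => n.Prime ∨
        ∃ p q : ℕ, p.Prime ∧ q.Prime ∧ zz N ≤ p ∧ p < q ∧ n = p * q) ⊆
      (PSK.JH N h).filter (fun n =>
        ∃ p q : ℕ, p.Prime ∧ q.Prime ∧ hd ε N < p ∧ p < q ∧ n = p * q) ∪
      (AP2 ε δ N).biUnion (fun p => (PSK.JH N h).filter
        (fun n => ∃ q : ℕ, q.Prime ∧ p < q ∧ n = p * q)) := by
    intro n hn
    rw [Finset.mem_filter] at hn
    obtain ⟨hn1, hn2⟩ := hn
    rw [Finset.mem_union]
    rcases hn2 with hn2 | ⟨p, q, hp, hq, hzp, hpq, hn3⟩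
    · exact absurd hn2 (hpr n hn1)
    · rcases lt_or_ge (hd ε N) p with h4 | h4
      · left
        rw [Finset.mem_filter]
        exact ⟨hn1, p, q, hp, hq, h4, hpq, hn3⟩
      · right
        rw [Finset.mem_biUnion]
        refine ⟨p, ?_, ?_⟩
        · rw [mem_AP2]
          exact ⟨by omega, hp, hzp, q, hq, hpq, hn3 ▸ hn1⟩
        · rw [Finset.mem_filter]
          exact ⟨hn1, q, hq, hpq, hn3⟩
  have h4 : (((PSK.JH N h).filter (fun n => n.Prime ∨
        ∃ p q : ℕ, p.Prime ∧ q.Prime ∧ zz N ≤ p ∧ p < q ∧ n = p * q)).card : ℝ) ≤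
      (((PSK.JH N h).filter (fun n =>
        ∃ p q : ℕ, p.Prime ∧ q.Prime ∧ hd ε N < p ∧ p < q ∧ n = p * q)).card : ℝ) +
      ∑ p ∈ AP2 ε δ N, (((PSK.JH N h).filter
        (fun n => ∃ q : ℕ, q.Prime ∧ p < q ∧ n = p * q)).card : ℝ) := by
    have h5 := (Finset.card_le_card h3).trans (Finset.card_union_le _ _)
    have h6 := h5.trans (Nat.add_le_add_left Finset.card_biUnion_le _)
    exact_mod_cast h6
  have h5 : ∑ p ∈ AP2 ε δ N, (((PSK.JH N h).filter
        (fun n => ∃ q : ℕ, q.Prime ∧ p < q ∧ n = p * q)).card : ℝ) ≤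
      ∑ p ∈ AP2 ε δ N, (33 / ε * X / log N) * (1 / (p : ℝ)) := by
    refine Finset.sum_le_sum fun p hp => ?_
    rw [mem_AP2] at hp
    obtain ⟨hp1, hp2, hp3, -⟩ := hp
    have hp0 : (0 : ℝ) < p := by exact_mod_cast hp2.pos
    refine (card_pq N h R p hR1 hp2 (lt_of_lt_of_le hRz hp3)).trans ?_
    have hple : (p : ℝ) ≤ (N : ℝ) ^ (1 / 2 - ε) := by
      have h6 : (p : ℝ) ≤ (hd ε N : ℝ) := by exact_mod_cast (by omega : p ≤ hd ε N)
      refine h6.trans ?_
      unfold hd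
      exact Nat.floor_le (rpow_nonneg hN0.le _)
    -- first term
    have h7 : (h : ℝ) / (p * Selberg.L R) ≤ X / (p * (ε * log N / 32)) := by
      calc (h : ℝ) / (p * Selberg.L R) ≤ X / (p * Selberg.L R) := by
            refine div_le_div_of_nonneg_right hhle ?_
            exact mul_nonneg hp0.le (hL0.le.trans hL)
        _ ≤ X / (p * (ε * log N / 32)) := by
            refine div_le_div_of_nonneg_left hX0.le (by positivity) ?_
            exact mul_le_mul_of_nonneg_left hL hp0.le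
    -- second term
    have h8 : 2 * (R : ℝ) ^ 4 ≤ X / (p * log N) := by
      rw [le_div_iff₀ (by positivity)]
      have h9 : (R : ℝ) ^ 4 ≤ (N : ℝ) ^ (ε / 4) := by
        calc (R : ℝ) ^ 4 ≤ ((N : ℝ) ^ (ε / 16)) ^ 4 :=
              pow_le_pow_left₀ (Nat.cast_nonneg _) hRle _
          _ = (N : ℝ) ^ (ε / 4) := by
              rw [← rpow_natCast, ← rpow_mul hN0.le]
              congr 1
              push_cast
              ring
      have h10 : 2 * log N ≤ (N : ℝ) ^ (ε / 4) := by linarith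
      calc 2 * (R : ℝ) ^ 4 * (p * log N) = (R : ℝ) ^ 4 * (2 * log N) * p := by ring
        _ ≤ (N : ℝ) ^ (ε / 4) * (N : ℝ) ^ (ε / 4) * (N : ℝ) ^ (1 / 2 - ε) := by
            refine mul_le_mul (mul_le_mul h9 h10 (by positivity) (rpow_nonneg hN0.le _)) hple
              hp0.le ?_
            exact mul_nonneg (rpow_nonneg hN0.le _) (rpow_nonneg hN0.le _)
        _ = (N : ℝ) ^ (ε / 4 + ε / 4 + (1 / 2 - ε)) := by
            rw [rpow_add hN0, rpow_add hN0]
        _ ≤ X := rpow_le_rpow_of_exponent_le hN1 (by linarith)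
    have h9 : X / (p * (ε * log N / 32)) = 32 / ε * (X / (p * log N)) := by
      field_simp
    have h10 : 33 / ε * X / log N * (1 / (p : ℝ)) = 33 / ε * (X / (p * log N)) := by
      field_simp
    rw [h9] at h7
    rw [h10]
    have h11 : 0 ≤ X / (p * log N) := by positivity
    have h12 : X / (p * log N) ≤ 1 / ε * (X / (p * log N)) := by
      have h13 : 1 ≤ 1 / ε := by rw [le_div_iff₀ hε]; linarith
      calc X / (p * log N) = 1 * (X / (p * log N)) := (one_mul _).symm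
        _ ≤ 1 / ε * (X / (p * log N)) := mul_le_mul_of_nonneg_right h13 h11
    have h13 : 33 / ε * (X / (p * log N)) =
        32 / ε * (X / (p * log N)) + 1 / ε * (X / (p * log N)) := by ring
    linarith
  rw [← Finset.mul_sum] at h5
  have h7 : C * ε * X / log N ≤ c / 2 * X / log N := by
    apply div_le_div_of_nonneg_right _ hlog.le
    exact mul_le_mul_of_nonneg_right hε2 hX0.le
  have h8 : c * X / log N ≤ c / 2 * X / log N +
      33 / ε * X / log N * ∑ p ∈ AP2 ε δ N, 1 / (p : ℝ) := by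
    linarith
  set Y : ℝ := X / log N with hY
  have hY0 : 0 < Y := by positivity
  set S : ℝ := ∑ p ∈ AP2 ε δ N, 1 / (p : ℝ) with hS
  have e1 : c * X / log N = c * Y := by rw [hY]; ring
  have e2 : c / 2 * X / log N = c / 2 * Y := by rw [hY]; ring
  have e3 : 33 / ε * X / log N = 33 / ε * Y := by rw [hY]; ring
  rw [e1, e2, e3] at h8
  have h9 : Y * (c / 2) ≤ Y * (33 / ε * S) := by
    have e4 : 33 / ε * Y * S = Y * (33 / ε * S) := by ring
    rw [e4] at h8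
    linarith
  have h10 : c / 2 ≤ 33 / ε * S := le_of_mul_le_mul_left h9 hY0
  have h11 : c / 2 * ε ≤ 33 * S := by
    have h12 := mul_le_mul_of_nonneg_right h10 hε.le
    have h13 : 33 / ε * S * ε = 33 * S := by field_simp
    linarith
  linarith

end Pool.Agent.PTL
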